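import Pool.Agent.Helper56.TQ.IV

set_option autoImplicit false

namespace Pool.Agent.Helper56.TQ.BRIDGE

open Finset Pool.Agent.R6.Trade Pool.Agent.Helper89.TQ Pool.Agent.Helper56.TQ

variable {N : Type} [Fintype N] [DecidableEq N]

theorem exists_out (τ : N → Fin 3) {S : Finset N} {i : Fin 3} (h : vec τ S i < nn τ i) :
    ∃ u, u ∉ S ∧ τ u = i := by
  by_contra hcon
  push Not at hcon
  have : nn τ i ≤ vec τ S i := by
    apply card_le_card
    intro v hv
    rw [mem_filter] at hv ⊢
    exact ⟨by_contra fun h => hcon v h hv.2, hv.2⟩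
  omega

theorem exists_in (τ : N → Fin 3) {S : Finset N} {j : Fin 3} (h : 0 < vec τ S j) :
    ∃ v, v ∈ S ∧ τ v = j := by
  obtain ⟨v, hv⟩ := card_pos.1 h
  exact ⟨v, (mem_filter.1 hv).1, (mem_filter.1 hv).2⟩

theorem add_step {W : Finset N → Prop} {τ : N → Fin 3} (hs : IsSimple W) {S : Finset N}
    (hS : W S) {i : Fin 3} (hi : vec τ S i < nn τ i) :
    ∃ S', W S' ∧ ∀ l, vec τ S' l = vec τ S l + if i = l then 1 else 0 := by
  obtain ⟨u, hu, hui⟩ := exists_out τ hi
  refine ⟨insert u S, hs.2.2 _ _ (subset_insert u S) hS, fun l => ?_⟩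
  rw [vec_insert τ hu, hui]

theorem shift_step {W : Finset N → Prop} {τ : N → Fin 3}
    (hord : ∀ u v, AtLeast W u v ↔ τ u ≤ τ v) {S : Finset N}
    (hS : W S) {i j : Fin 3} (hij : i < j) (hi : vec τ S i < nn τ i) (hj : 0 < vec τ S j) :
    ∃ S', W S' ∧ ∀ l, vec τ S' l + (if j = l then 1 else 0) = vec τ S l + if i = l then 1 else 0 := by
  obtain ⟨u, hu, hui⟩ := exists_out τ hi
  obtain ⟨v, hv, hvj⟩ := exists_in τ hj
  have huv : AtLeast W u v := (hord u v).2 (by rw [hui, hvj]; exact hij.le)
  have hu' : u ∉ S.erase v := fun h => hu (mem_of_mem_erase h)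
  have hv' : v ∉ S.erase v := by simp
  refine ⟨insert u (S.erase v), huv _ hu' hv' (by rwa [insert_erase hv]), fun l => ?_⟩
  have h1 := vec_insert τ hu' l
  have h2 := vec_insert τ hv' l
  rw [insert_erase hv, hvj] at h2
  rw [hui] at h1
  omega

theorem shift_mono {W : Finset N → Prop} {τ : N → Fin 3} (hs : IsSimple W)
    (hord : ∀ u v, AtLeast W u v ↔ τ u ≤ τ v) (k : ℕ) :
    ∀ S T : Finset N, W S → GE (vec τ T) (vec τ S) →
      3 * vec τ T 0 + 2 * vec τ T 1 + vec τ T 2 = 3 * vec τ S 0 + 2 * vec τ S 1 + vec τ S 2 + k →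
      W T := by
  induction k using Nat.strong_induction_on with
  | _ k ih =>
    intro S T hS hge hm
    have hT0 := vec_le τ T 0
    have hT1 := vec_le τ T 1
    have hT2 := vec_le τ T 2
    obtain ⟨g0, g1, g2⟩ := hge
    -- the use of a step
    have use : ∀ S', W S' → GE (vec τ T) (vec τ S') →
        3 * vec τ S 0 + 2 * vec τ S 1 + vec τ S 2 < 3 * vec τ S' 0 + 2 * vec τ S' 1 + vec τ S' 2 →
        W T := by
      intro S' hS' hge' hlt
      obtain ⟨g0', g1', g2'⟩ := hge'
      exact ih (3 * vec τ T 0 + 2 * vec τ T 1 + vec τ T 2 -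
        (3 * vec τ S' 0 + 2 * vec τ S' 1 + vec τ S' 2)) (by omega) S' T hS' ⟨g0', g1', g2'⟩
        (by omega)
    have d01 : ¬ ((0 : Fin 3) = 1) := by decide
    have d02 : ¬ ((0 : Fin 3) = 2) := by decide
    have d10 : ¬ ((1 : Fin 3) = 0) := by decide
    have d12 : ¬ ((1 : Fin 3) = 2) := by decide
    have d20 : ¬ ((2 : Fin 3) = 0) := by decide
    have d21 : ¬ ((2 : Fin 3) = 1) := by decide
    by_cases c0 : vec τ S 0 < vec τ T 0
    · by_cases c1 : vec τ S 0 + vec τ S 1 = vec τ T 0 + vec τ T 1
      · obtain ⟨S', hS', h⟩ := shift_step hord hS (i := 0) (j := 1) (by decide) (by omega) (by omega)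
        have h0 := h 0
        have h1 := h 1
        have h2 := h 2
        simp only [d01, d02, d10, d12, if_true, if_false] at h0 h1 h2
        exact use S' hS' ⟨by omega, by omega, by omega⟩ (by omega)
      · by_cases c2 : vec τ S 0 + vec τ S 1 + vec τ S 2 = vec τ T 0 + vec τ T 1 + vec τ T 2
        · obtain ⟨S', hS', h⟩ := shift_step hord hS (i := 0) (j := 2) (by decide) (by omega)
            (by omega)
          have h0 := h 0
          have h1 := h 1
          have h2 := h 2
          simp only [d01, d02, d20, d21, if_true, if_false] at h0 h1 h2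
          exact use S' hS' ⟨by omega, by omega, by omega⟩ (by omega)
        · obtain ⟨S', hS', h⟩ := add_step (τ := τ) hs hS (i := 0) (by omega)
          have h0 := h 0
          have h1 := h 1
          have h2 := h 2
          simp only [d01, d02, if_true, if_false] at h0 h1 h2
          exact use S' hS' ⟨by omega, by omega, by omega⟩ (by omega)
    · by_cases c1 : vec τ S 0 + vec τ S 1 < vec τ T 0 + vec τ T 1
      · by_cases c2 : vec τ S 0 + vec τ S 1 + vec τ S 2 = vec τ T 0 + vec τ T 1 + vec τ T 2
        · obtain ⟨S', hS', h⟩ := shift_step hord hS (i := 1) (j := 2) (by decide) (by omega)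
            (by omega)
          have h0 := h 0
          have h1 := h 1
          have h2 := h 2
          simp only [d10, d12, d20, d21, if_true, if_false] at h0 h1 h2
          exact use S' hS' ⟨by omega, by omega, by omega⟩ (by omega)
        · obtain ⟨S', hS', h⟩ := add_step (τ := τ) hs hS (i := 1) (by omega)
          have h0 := h 0
          have h1 := h 1
          have h2 := h 2
          simp only [d10, d12, if_true, if_false] at h0 h1 h2
          exact use S' hS' ⟨by omega, by omega, by omega⟩ (by omega)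
      · by_cases c2 : vec τ S 0 + vec τ S 1 + vec τ S 2 < vec τ T 0 + vec τ T 1 + vec τ T 2
        · obtain ⟨S', hS', h⟩ := add_step (τ := τ) hs hS (i := 2) (by omega)
          have h0 := h 0
          have h1 := h 1
          have h2 := h 2
          simp only [d20, d21, if_true, if_false] at h0 h1 h2
          exact use S' hS' ⟨by omega, by omega, by omega⟩ (by omega)
        · have heq : vec τ S = vec τ T := by
            funext i
            fin_cases i
            · show vec τ S 0 = vec τ T 0
              omega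
            · show vec τ S 1 = vec τ T 1
              omega
            · show vec τ S 2 = vec τ T 2
              omega
          exact win_of_vec_eq hs.2.2 τ (fun a b hab => (hord a b).2 hab.le) _ S T rfl heq hS

theorem GE_mono {W : Finset N → Prop} {τ : N → Fin 3} (hs : IsSimple W)
    (hord : ∀ u v, AtLeast W u v ↔ τ u ≤ τ v) {S T : Finset N} (hS : W S)
    (h : GE (vec τ T) (vec τ S)) : W T := by
  have h' := h
  obtain ⟨h0, h1, h2⟩ := h'
  exact shift_mono hs hord (3 * vec τ T 0 + 2 * vec τ T 1 + vec τ T 2 -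
    (3 * vec τ S 0 + 2 * vec τ S 1 + vec τ S 2)) S T hS h (by omega)

theorem exists_min {W : Finset N → Prop} {τ : N → Fin 3} (k : ℕ) :
    ∀ S : Finset N, W S → 3 * vec τ S 0 + 2 * vec τ S 1 + vec τ S 2 = k →
      ∃ v, MinWin W τ v ∧ GE (vec τ S) v := by
  induction k using Nat.strong_induction_on with
  | _ k ih =>
    intro S hS hk
    by_cases hmin : ∀ S', W S' → GE (vec τ S) (vec τ S') → vec τ S' = vec τ S
    · exact ⟨vec τ S, ⟨⟨S, hS, rfl⟩, hmin⟩, le_rfl, le_rfl, le_rfl⟩
    · push Not at hmin
      obtain ⟨S', hS', hge, hne⟩ := hmin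
      obtain ⟨g0, g1, g2⟩ := hge
      have hlt : 3 * vec τ S' 0 + 2 * vec τ S' 1 + vec τ S' 2 < k := by
        by_contra hcon
        apply hne
        funext i
        fin_cases i
        · show vec τ S' 0 = vec τ S 0
          omega
        · show vec τ S' 1 = vec τ S 1
          omega
        · show vec τ S' 2 = vec τ S 2
          omega
      obtain ⟨v, hv, v0, v1, v2⟩ := ih _ hlt S' hS' rfl
      exact ⟨v, hv, by omega, by omega, by omega⟩

theorem main : S_BRIDGE := by
  intro N _ _ W τ a b hs hsurj hord hab hmin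
  have ha : MinWin W τ a := (hmin a).2 (Or.inl rfl)
  have hb : MinWin W τ b := (hmin b).2 (Or.inr rfl)
  obtain ⟨⟨Sa, hSa, hva⟩, hma⟩ := ha
  obtain ⟨⟨Sb, hSb, hvb⟩, hmb⟩ := hb
  have hW : ∀ S, W S ↔ Win a b (vec τ S) := by
    intro S
    constructor
    · intro hS
      obtain ⟨v, hv, hge⟩ := exists_min _ S hS rfl
      rcases (hmin v).1 hv with rfl | rfl
      · exact Or.inl hge
      · exact Or.inr hge
    · rintro (h | h)
      · exact GE_mono hs hord hSa (by rw [hva]; exact h)
      · exact GE_mono hs hord hSb (by rw [hvb]; exact h)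
  obtain ⟨t1, t2⟩ := types hW hsurj hord
  refine ⟨fun i => ?_, fun i => ?_, ?_, ?_, t1, t2, hW⟩
  · rw [← hva]; exact vec_le τ Sa i
  · rw [← hvb]; exact vec_le τ Sb i
  · intro h
    exact hab ((hma Sb hSb (by rw [hvb]; exact h)).symm.trans hvb)
  · intro h
    exact hab (hva.symm.trans (hmb Sa hSa (by rw [hva]; exact h)))

end Pool.Agent.Helper56.TQ.BRIDGE
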