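import Pool.Agent.Helper89.TQ.Spec

set_option autoImplicit false

namespace Pool.Agent.Helper56.TQ

open Finset Pool.Agent.R6.Trade Pool.Agent.Helper89.TQ

variable {N : Type} [Fintype N] [DecidableEq N]

theorem vec_insert (τ : N → Fin 3) {S : Finset N} {u : N} (hu : u ∉ S) (i : Fin 3) :
    vec τ (insert u S) i = vec τ S i + if τ u = i then 1 else 0 := by
  unfold vec
  rw [filter_insert]
  by_cases h : τ u = i
  · rw [if_pos h, if_pos h, card_insert_of_notMem]
    simp [hu]
  · rw [if_neg h, if_neg h, add_zero]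

theorem vec_le (τ : N → Fin 3) (S : Finset N) (i : Fin 3) : vec τ S i ≤ nn τ i :=
  card_le_card (filter_subset_filter _ (subset_univ S))

/-- (iv) of BRIDGE -/
theorem types {W : Finset N → Prop} {τ : N → Fin 3} {a b : Fin 3 → ℕ}
    (hW : ∀ S, W S ↔ Win a b (vec τ S)) (hsurj : Function.Surjective τ)
    (hord : ∀ u v, AtLeast W u v ↔ τ u ≤ τ v) :
    ((0 < a 0 ∧ a 1 < nn τ 1) ∨ (0 < b 0 ∧ b 1 < nn τ 1)) ∧
    ((0 < a 1 ∧ a 2 < nn τ 2) ∨ (0 < b 1 ∧ b 2 < nn τ 2)) := by
  constructor
  · obtain ⟨u, hu⟩ := hsurj 0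
    obtain ⟨v, hv⟩ := hsurj 1
    have h : ¬ AtLeast W v u := by
      rw [hord, hu, hv]; decide
    unfold AtLeast at h
    push Not at h
    obtain ⟨S, hvS, huS, h1, h2⟩ := h
    rw [hW] at h1 h2
    have e1 : ∀ i, vec τ (insert u S) i = vec τ S i + if (0 : Fin 3) = i then 1 else 0 := fun i => by
      rw [vec_insert τ huS, hu]
    have e2 : ∀ i, vec τ (insert v S) i = vec τ S i + if (1 : Fin 3) = i then 1 else 0 := fun i => by
      rw [vec_insert τ hvS, hv]
    have hle := vec_le τ (insert v S) 1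
    unfold Win GE at h1 h2
    simp only [e1, e2] at h1 h2 hle
    norm_num at h1 h2 hle
    have e10 : ¬ ((0 : Fin 3) = 1) := by decide
    have e20 : ¬ ((0 : Fin 3) = 2) := by decide
    have e12 : ¬ ((1 : Fin 3) = 2) := by decide
    simp only [e10, e20, e12, if_false] at h1 h2 hle
    omega
  · obtain ⟨u, hu⟩ := hsurj 1
    obtain ⟨v, hv⟩ := hsurj 2
    have h : ¬ AtLeast W v u := by
      rw [hord, hu, hv]; decide
    unfold AtLeast at h
    push Not at h
    obtain ⟨S, hvS, huS, h1, h2⟩ := h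
    rw [hW] at h1 h2
    have e1 : ∀ i, vec τ (insert u S) i = vec τ S i + if (1 : Fin 3) = i then 1 else 0 := fun i => by
      rw [vec_insert τ huS, hu]
    have e2 : ∀ i, vec τ (insert v S) i = vec τ S i + if (2 : Fin 3) = i then 1 else 0 := fun i => by
      rw [vec_insert τ hvS, hv]
    have hle := vec_le τ (insert v S) 2
    unfold Win GE at h1 h2
    simp only [e1, e2] at h1 h2 hle
    norm_num at h1 h2 hle
    have e10 : ¬ ((2 : Fin 3) = 1) := by decide
    have e20 : ¬ ((2 : Fin 3) = 0) := by decide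
    have e12 : ¬ ((1 : Fin 3) = 2) := by decide
    simp only [e10, e20, e12, if_false] at h1 h2 hle
    omega

end Pool.Agent.Helper56.TQ
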