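import Pool.Agent.Helper89.TQ.Ctx

set_option autoImplicit false
set_option linter.all false
set_option maxHeartbeats 0

namespace Pool.Agent.Helper56.TQ

open Pool.Agent.Helper89.TQ

theorem c0_11_11_33_k1 {n1 n2 n3 A1 A2 A3 B1 B2 B3 m11_1 m11_2 m11_3 m13_1 m13_2 m13_3 m22_1 m22_2 m22_3 m23_1 m23_2 m23_3 m33_1 m33_2 m33_3 : ℤ}
    (C : Ctx0 n1 n2 n3 A1 A2 A3 B1 B2 B3 m11_1 m11_2 m11_3 m13_1 m13_2 m13_3 m22_1 m22_2 m22_3 m23_1 m23_2 m23_3 m33_1 m33_2 m33_3)
    (e0 : 0 < B1)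
    (e1 : 0 < A3)
    (s1 : 1 * A1 + 2 * B1 ≤ m11_1 + m11_1 + m33_1)
    (s2 : 1 * A2 + 2 * B2 ≤ m11_2 + m11_2 + m33_2)
    (s3 : 1 * A3 + 2 * B3 ≤ m11_3 + m11_3 + m33_3) : False := by
  have h0 := C.a0
  have h1 := C.a1
  have h2 := C.a2
  have h3 := C.a3
  have h4 := C.a4
  have h5 := C.a5
  have h6 := C.b0
  have h7 := C.b1
  have h8 := C.b2
  have h9 := C.b3
  have h10 := C.b4
  have h11 := C.b5
  have h12 := C.o0
  have h13 := C.o1
  have h14 := C.o2
  have h15 := C.t12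
  have h16 := C.t23
  have h17 := C.f11_0
  have h18 := C.f11_1
  have h19 := C.f11_2
  have h20 := C.f33_0
  have h21 := C.f33_1
  have h22 := C.f33_2
  have h23 := C.f33_3
  have h24 := C.f33_4
  have h25 := C.f33_5
  have h26 := C.f33_6
  have h27 := C.f33_7
  have h28 := C.f33_8
  have h29 := C.f13_0
  have h30 := C.f13_1
  have h31 := C.f13_2
  have h32 := C.f13_3
  have h33 := C.f13_4
  have h34 := C.f13_5
  have h35 := C.f13_6
  have h36 := C.f13_7
  have h37 := C.f13_8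
  have h38 := C.p11_33B
  have h39 := C.p11_33A
  have h40 := C.tzpm
  have h41 := C.tpmz
  have h42 := C.p11_13B
  have h43 := C.tmpp
  have h44 := C.tmzp
  clear C
  rcases h15 with h15 | h15 <;> rcases h16 with h16 | h16 <;> rcases h22 with h22 | h22 <;> rcases h25 with h25 | h25 <;> rcases h28 with h28 | h28 <;> rcases h31 with h31 | h31 <;> rcases h34 with h34 | h34 <;> rcases h37 with h37 | h37 <;> omega

end Pool.Agent.Helper56.TQ
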